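import Pool.Agent.Zk71.DR.Unif
import Pool.Agent.Zk71.D2.GenB

/-!
# Uniform Anderson model, `d ≥ 2`: the Drude formula for the conductivity at weak disorder

`Δ_ω = -Δ + ω` on `ℤ^d`, `d ≥ 2`, with iid `ω_j` uniform on `[-c, c]`. Kubo's formula for the
conductivity at the energy `E` and the (imaginary) frequency `η` is
`σ(E, η) = π⁻¹ η² ∑_x x_j² 𝔼 |G(x; E + iη)|²`. For every `κ < 1/5`, as `c → 0`,
`c² σ(E, η) → 3 ν₁(E) / (2 π ν(E))` uniformly for `c^{2+κ} ≤ η ≪ c²` and for `E` in compact subsets of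
the interior `(0, 4d)` of the free spectrum (without the van Hove energy `4` if `d = 2`): the
conductivity is the metallic one of the kinetic theory down to frequencies far below the kinetic
scale `c²`, also in two dimensions.
-/

set_option autoImplicit false

open scoped BigOperators Topology
open MeasureTheory Filter

namespace Pool.Agent.Results.MP_562b47_mp.DrudeFormula

/-- the uniform law on `[-c, c]` -/
noncomputable def unif (c : ℝ) : Measure ℝ :=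
  ENNReal.ofReal (1 / (2 * c)) • volume.restrict (Set.Icc (-c) c)

/-- iid variables, uniform on `[-c, c]` -/
noncomputable def Pr (d : ℕ) (c : ℝ) : Measure ((Fin d → ℤ) → ℝ) :=
  Measure.infinitePi fun _ : Fin d → ℤ => unif c

/-- `(Δ_ω u)(x) = -∑_{|n|=1} (u(x+n) - u(x)) + ω_x u(x)` -/
noncomputable def H {d : ℕ} (ω : (Fin d → ℤ) → ℝ) (u : (Fin d → ℤ) → ℂ) (x : Fin d → ℤ) : ℂ :=
  -∑ i : Fin d, ((u (x + Pi.single i 1) - u x) + (u (x - Pi.single i 1) - u x)) + (ω x : ℂ) * u x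

/-- `u` is the Green function `(Δ_ω - z)⁻¹ δ_0`: the square summable solution of
`(Δ_ω - z) u = δ_0` -/
def IsGreen {d : ℕ} (ω : (Fin d → ℤ) → ℝ) (z : ℂ) (u : (Fin d → ℤ) → ℂ) : Prop :=
  (Summable fun x => ‖u x‖ ^ 2) ∧ ∀ x, H ω u x - z * u x = if x = 0 then 1 else 0

/-- the dispersion relation `∑_i (2 - 2 cos 2πk_i)` of `-Δ`, `k ∈ [0,1]^d` -/
noncomputable def disp {d : ℕ} (k : Fin d → ℝ) : ℝ := ∑ i, (2 - 2 * Real.cos (2 * Real.pi * k i))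

/-- the Poisson kernel `π⁻¹ δ/(y² + δ²)` -/
noncomputable def poisson (δ y : ℝ) : ℝ := Real.pi⁻¹ * (δ / (y ^ 2 + δ ^ 2))

/-- Kubo's formula `π⁻¹ η² ∑_x x_j² 𝔼 |G(x)|²`, where `G = (Δ_ω - E - iη)⁻¹ δ_0` -/
noncomputable def kubo {d : ℕ} (c η : ℝ) (G : ((Fin d → ℤ) → ℝ) → (Fin d → ℤ) → ℂ)
    (j : Fin d) : ℝ :=
  Real.pi⁻¹ * η ^ 2 * ∑' x : Fin d → ℤ, (x j : ℝ) ^ 2 * ∫ ω, ‖G ω x‖ ^ 2 ∂(Pr d c)

theorem isG_of {d : ℕ} {ω : (Fin d → ℤ) → ℝ} {z : ℂ} {u : (Fin d → ℤ) → ℂ} :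
    IsGreen ω z u ↔ Pool.Agent.Zk11.QD.IsG 1 ω z u := by
  have key : ∀ x, H ω u x = Pool.Agent.Zk11.QD.HZ 1 ω u x := by
    intro x
    unfold H Pool.Agent.Zk11.QD.HZ
    rw [one_mul]
  constructor
  · intro h
    exact ⟨h.1, fun x => by rw [← key]; exact h.2 x⟩
  · intro h
    exact ⟨h.sq, fun x => by rw [key]; exact h.eq x⟩

/-- **Theorem.** -/
theorem result (d : ℕ) (hd : 2 ≤ d) :
    ∃ ν ν₁ : ℝ → ℝ,
      (∀ E : ℝ, 0 < E → E < 4 * d → (d = 2 → E ≠ 4) → 0 < ν E ∧ 0 < ν₁ E ∧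
        Tendsto (fun δ : ℝ => ∫ k in Set.Icc (0 : Fin d → ℝ) 1, poisson δ (disp k - E)) (𝓝[>] 0)
          (𝓝 (ν E)) ∧
        ∀ i : Fin d, Tendsto (fun δ : ℝ => ∫ k in Set.Icc (0 : Fin d → ℝ) 1,
          (2 * Real.sin (2 * Real.pi * k i)) ^ 2 * poisson δ (disp k - E)) (𝓝[>] 0)
          (𝓝 (ν₁ E))) ∧
      ∀ E₁ E₂ κ ε : ℝ, 0 < E₁ → E₂ < 4 * d → (d = 2 → E₂ < 4 ∨ 4 < E₁) → 0 < κ → κ < 1 / 5 →
      0 < ε →
      ∃ δ : ℝ, 0 < δ ∧ ∀ E c η : ℝ, E₁ ≤ E → E ≤ E₂ →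
        0 < c → c < δ → c ^ (2 + κ) ≤ η → η ≤ δ * c ^ 2 →
        (∀ ω : (Fin d → ℤ) → ℝ, ∃! u, IsGreen ω ((E : ℂ) + η * Complex.I) u) ∧
        ∀ G : ((Fin d → ℤ) → ℝ) → (Fin d → ℤ) → ℂ,
          (∀ᵐ ω ∂(Pr d c), IsGreen ω ((E : ℂ) + η * Complex.I) (G ω)) → ∀ j : Fin d,
          (∀ x, Integrable (fun ω => ‖G ω x‖ ^ 2) (Pr d c)) ∧
          (Summable fun x : Fin d → ℤ => (x j : ℝ) ^ 2 * ∫ ω, ‖G ω x‖ ^ 2 ∂(Pr d c)) ∧
          |c ^ 2 * kubo c η G j - 3 * ν₁ E / (2 * Real.pi * ν E)| ≤ ε := by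
  have hpi := Real.pi_pos
  -- reduction to the normalized statement
  suffices H : ∃ g h : ℝ → ℝ,
      (∀ E : ℝ, 0 < E → E < 4 * d → (d = 2 → E ≠ 4) → 0 < g E ∧ 0 < h E ∧
        Tendsto (fun δ : ℝ => ∫ k in Pool.Agent.Zk11.QD.cube d,
          Pool.Agent.Zk11.QD.po δ (Pool.Agent.Zk11.QD.ek k - E)) (𝓝[>] 0) (𝓝 (g E)) ∧
        ∀ i : Fin d, Tendsto (fun δ : ℝ => ∫ k in Pool.Agent.Zk11.QD.cube d,
          4 * Real.sin (2 * Real.pi * k i) ^ 2 *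
            Pool.Agent.Zk11.QD.po δ (Pool.Agent.Zk11.QD.ek k - E)) (𝓝[>] 0) (𝓝 (h E))) ∧
      ∀ E₁ E₂ κ ε : ℝ, 0 < E₁ → E₂ < 4 * d → (d = 2 → E₂ < 4 ∨ 4 < E₁) → 0 < κ → κ < 1 / 5 →
      0 < ε →
      ∃ δ : ℝ, 0 < δ ∧ ∀ E : ℝ, E₁ ≤ E → E ≤ E₂ →
      ∀ c η : ℝ, 0 < c → c < δ → c ^ (2 + κ) ≤ η → η ≤ δ * c ^ 2 →
      ∀ G : (Pool.Agent.Zk11.QD.Zd d → ℝ) → Pool.Agent.Zk11.QD.Zd d → ℂ,
        (∀ᵐ ω ∂(Pool.Agent.Zk11.QD.PZ d (Pool.Agent.Zk71.DR.unif c)),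
          Pool.Agent.Zk11.QD.IsG 1 ω ((E : ℂ) + η * Complex.I) (G ω)) → ∀ j : Fin d,
        Summable (fun y : Pool.Agent.Zk11.QD.Zd d => (y j : ℝ) ^ 2 *
          ∫ ω, ‖G ω y‖ ^ 2 ∂(Pool.Agent.Zk11.QD.PZ d (Pool.Agent.Zk71.DR.unif c))) ∧
        |c ^ 2 * η ^ 2 * ∑' y : Pool.Agent.Zk11.QD.Zd d, (y j : ℝ) ^ 2 *
          ∫ ω, ‖G ω y‖ ^ 2 ∂(Pool.Agent.Zk11.QD.PZ d (Pool.Agent.Zk71.DR.unif c)) -
          3 * h E / (2 * g E)| ≤ ε by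
    obtain ⟨g, hh, hA, hB⟩ := H
    refine ⟨fun E => Real.pi⁻¹ * g E, fun E => Real.pi⁻¹ * hh E, ?_, ?_⟩
    · intro E hE0 hE1 hE4
      obtain ⟨a1, a2, a3, a4⟩ := hA E hE0 hE1 hE4
      refine ⟨by positivity, by positivity, ?_, ?_⟩
      · refine (a3.const_mul Real.pi⁻¹).congr fun δ => ?_
        rw [← integral_const_mul, ← Pool.Agent.Zk11.QD.cube_eq]
        rfl
      · intro i
        refine ((a4 i).const_mul Real.pi⁻¹).congr fun δ => ?_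
        rw [← integral_const_mul, ← Pool.Agent.Zk11.QD.cube_eq]
        refine integral_congr_ae (Eventually.of_forall fun k => ?_)
        unfold poisson disp Pool.Agent.Zk11.QD.po Pool.Agent.Zk11.QD.ek
        simp only
        ring
    · intro E₁ E₂ κ ε hE₁ hE₂ hE4 hκ0 hκ1 hε
      obtain ⟨δ, hδ, h⟩ := hB E₁ E₂ κ (Real.pi * ε) hE₁ hE₂ hE4 hκ0 hκ1 (by positivity)
      refine ⟨δ, hδ, fun E c η hEa hEb hc0 hc1 hη0 hη1 => ?_⟩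
      have hη : 0 < η := lt_of_lt_of_le (Real.rpow_pos_of_pos hc0 _) hη0
      have hz : 0 < ((E : ℂ) + η * Complex.I).im := by simpa using hη
      refine ⟨fun ω => ?_, fun G hG j => ?_⟩
      · obtain ⟨u, hu⟩ := Pool.Agent.Zk11.QD.isG_exists 1 ω _ hz
        exact ⟨u, isG_of.2 hu, fun v hv => Pool.Agent.Zk11.QD.isG_unique 1 ω _ hz v u
          (isG_of.1 hv) hu⟩
      · have hG' : ∀ᵐ ω ∂(Pool.Agent.Zk11.QD.PZ d (Pool.Agent.Zk71.DR.unif c)),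
            Pool.Agent.Zk11.QD.IsG 1 ω ((E : ℂ) + η * Complex.I) (G ω) :=
          hG.mono fun ω hω => isG_of.1 hω
        have hprob := Pool.Agent.Zk71.DR.unif_prob c hc0
        obtain ⟨h1, h2⟩ := h E hEa hEb c η hc0 hc1 hη0 hη1 G hG' j
        refine ⟨fun x => Pool.Agent.Zk11.QD.G_int (Pool.Agent.Zk71.DR.unif c) 1 _ hz G hG' x,
          h1, ?_⟩
        have h2' : |c ^ 2 * η ^ 2 * ∑' y : Fin d → ℤ, (y j : ℝ) ^ 2 * ∫ ω, ‖G ω y‖ ^ 2 ∂(Pr d c) -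
            3 * hh E / (2 * g E)| ≤ Real.pi * ε := h2
        have hne : d = 2 → E ≠ 4 := fun h0 => by
          rcases hE4 h0 with h3 | h3
          · exact (lt_of_le_of_lt hEb h3).ne
          · exact (lt_of_lt_of_le h3 hEa).ne'
        have hg := (hA E (by linarith) (by linarith) hne).1
        unfold kubo
        set S := ∑' y : Fin d → ℤ, (y j : ℝ) ^ 2 * ∫ ω, ‖G ω y‖ ^ 2 ∂(Pr d c) with hS
        have e1 : c ^ 2 * (Real.pi⁻¹ * η ^ 2 * S) -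
            3 * (Real.pi⁻¹ * hh E) / (2 * Real.pi * (Real.pi⁻¹ * g E)) =
            (c ^ 2 * η ^ 2 * S - 3 * hh E / (2 * g E)) / Real.pi := by
          field_simp
        simp only
        rw [e1, abs_div, abs_of_pos hpi, div_le_iff₀ hpi, mul_comm ε]
        exact h2'
  rcases Nat.lt_or_ge 2 d with h3 | h3
  · -- `d ≥ 3`
    have hd3 : 3 ≤ d := h3
    refine ⟨fun E => (Pool.Agent.Zk11.QD.g0 d E).im, fun E => (Pool.Agent.Zk11.QD.h0 d E).im,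
      ?_, ?_⟩
    · intro E hE0 hE1 _
      exact ⟨Pool.Agent.Zk11.QD.g0_pos hd3 E hE0 hE1, Pool.Agent.Zk11.QD.h0_pos hd3 E hE0 hE1,
        Pool.Agent.Zk11.QD.g0_po hd3 E, fun i => Pool.Agent.Zk11.QD.h0_po hd3 i E⟩
    · intro E₁ E₂ κ ε hE₁ hE₂ _ hκ0 hκ1 hε
      exact Pool.Agent.Zk71.DR.drude_unif hd3 E₁ E₂ hE₁ hE₂ κ hκ0 hκ1 ε hε
  · -- `d = 2`
    obtain rfl : d = 2 := le_antisymm h3 hd
    refine ⟨fun E => (Pool.Agent.Zk71.D2.g2 E).im, fun E => (Pool.Agent.Zk71.D2.h2 E).im,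
      ?_, ?_⟩
    · intro E hE0 hE1 hE4
      have hE8 : E < 8 := by
        push_cast at hE1
        linarith
      have hO : Pool.Agent.Zk71.D2.Ok E E := by
        rcases lt_or_gt_of_ne (hE4 rfl) with h | h
        · exact Or.inl ⟨hE0, h⟩
        · exact Or.inr ⟨h, hE8⟩
      exact ⟨Pool.Agent.Zk71.D2.g2_pos E hO, Pool.Agent.Zk71.D2.h2_pos E hO,
        Pool.Agent.Zk71.D2.g2_po E hO, fun i => Pool.Agent.Zk71.D2.h2_po i E hO⟩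
    · intro E₁ E₂ κ ε hE₁ hE₂ hE4 hκ0 hκ1 hε
      rcases le_or_gt E₁ E₂ with h12 | h12
      · have hO : Pool.Agent.Zk71.D2.Ok E₁ E₂ := by
          push_cast at hE₂
          rcases hE4 rfl with h | h
          · exact Or.inl ⟨hE₁, h⟩
          · exact Or.inr ⟨h, by linarith⟩
        exact Pool.Agent.Zk71.D2.drude2_unif E₁ E₂ h12 hO κ hκ0 hκ1 ε hε
      · refine ⟨1, one_pos, fun E hEa hEb => ?_⟩
        exfalso
        linarith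

end Pool.Agent.Results.MP_562b47_mp.DrudeFormula
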