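import Pool.Agent.Zk71.D2.GenA

/-!
# Uniform Anderson model in two dimensions: quantum diffusion beyond the kinetic scale

`Δ_ω = -Δ + ω` on `ℤ²` with iid `ω_j` uniform on `[-c, c]`, `c → 0`, at energies in a compact subset of
`(0, 4) ∪ (4, 8)`, the free spectrum without its edges and the van Hove energy `4`. For `κ < 1/3` and
`c^{2+κ} ≤ η ≪ c²` the averaged squared Green function `η 𝔼|G(x; E + iη)|²`, rescaled diffusively
(`x ~ c^{-1} η^{-1/2}`), converges to the solution of a diffusion equation: its Fourier transform at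
momentum `c √η P` tends to `π ν / (1 + D |P|²)`, `D = 3 ν₁ / (4 π ν²)`.

So in dimension two, where localization is expected at every energy, the model is diffusive with the
constants of kinetic theory at all scales from below `c²` down to `c^{2+κ}`.
-/

set_option autoImplicit false

open scoped BigOperators Topology
open MeasureTheory Filter

namespace Pool.Agent.Results.MP_562b47_mp.TwoDimDiffusion

/-- the uniform law on `[-c, c]` -/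
noncomputable def unif (c : ℝ) : Measure ℝ :=
  ENNReal.ofReal (1 / (2 * c)) • volume.restrict (Set.Icc (-c) c)

/-- iid variables on `ℤ²`, uniform on `[-c, c]` -/
noncomputable def Pr (c : ℝ) : Measure ((Fin 2 → ℤ) → ℝ) :=
  Measure.infinitePi fun _ : Fin 2 → ℤ => unif c

/-- `(Δ_ω u)(x) = -∑_{|n|=1} (u(x+n) - u(x)) + ω_x u(x)` -/
noncomputable def H (ω : (Fin 2 → ℤ) → ℝ) (u : (Fin 2 → ℤ) → ℂ) (x : Fin 2 → ℤ) : ℂ :=
  -∑ i : Fin 2, ((u (x + Pi.single i 1) - u x) + (u (x - Pi.single i 1) - u x)) + (ω x : ℂ) * u x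

/-- `u` is the Green function `(Δ_ω - z)⁻¹ δ_0`: the square summable solution of
`(Δ_ω - z) u = δ_0` -/
def IsGreen (ω : (Fin 2 → ℤ) → ℝ) (z : ℂ) (u : (Fin 2 → ℤ) → ℂ) : Prop :=
  (Summable fun x => ‖u x‖ ^ 2) ∧ ∀ x, H ω u x - z * u x = if x = 0 then 1 else 0

/-- the dispersion relation `∑_i (2 - 2 cos 2πk_i)` of `-Δ`, `k ∈ [0,1]²` -/
noncomputable def disp (k : Fin 2 → ℝ) : ℝ := ∑ i, (2 - 2 * Real.cos (2 * Real.pi * k i))

/-- the Poisson kernel `π⁻¹ δ/(y² + δ²)` -/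
noncomputable def poisson (δ y : ℝ) : ℝ := Real.pi⁻¹ * (δ / (y ^ 2 + δ ^ 2))

/-- `𝔼 |G(x)|²` -/
noncomputable def msq (c : ℝ) (G : ((Fin 2 → ℤ) → ℝ) → (Fin 2 → ℤ) → ℂ) (x : Fin 2 → ℤ) : ℝ :=
  ∫ ω, ‖G ω x‖ ^ 2 ∂(Pr c)

/-- the interval `[E₁, E₂]` lies in `(0, 4)` or in `(4, 8)` -/
def Bulk (E₁ E₂ : ℝ) : Prop := (0 < E₁ ∧ E₂ < 4) ∨ (4 < E₁ ∧ E₂ < 8)

theorem isG_of {ω : (Fin 2 → ℤ) → ℝ} {z : ℂ} {u : (Fin 2 → ℤ) → ℂ} :
    IsGreen ω z u ↔ Pool.Agent.Zk11.QD.IsG 1 ω z u := by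
  have key : ∀ x, H ω u x = Pool.Agent.Zk11.QD.HZ 1 ω u x := by
    intro x
    unfold H Pool.Agent.Zk11.QD.HZ
    rw [one_mul]
  constructor
  · intro h
    exact ⟨h.1, fun x => by rw [← key]; exact h.2 x⟩
  · intro h
    exact ⟨h.sq, fun x => by rw [key]; exact h.eq x⟩

/-- **Theorem.** -/
theorem result :
    ∃ ν ν₁ : ℝ → ℝ,
      (∀ E : ℝ, 0 < E → E < 8 → E ≠ 4 → 0 < ν E ∧ 0 < ν₁ E ∧
        Tendsto (fun δ : ℝ => ∫ k in Set.Icc (0 : Fin 2 → ℝ) 1, poisson δ (disp k - E)) (𝓝[>] 0)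
          (𝓝 (ν E)) ∧
        ∀ i : Fin 2, Tendsto (fun δ : ℝ => ∫ k in Set.Icc (0 : Fin 2 → ℝ) 1,
          (2 * Real.sin (2 * Real.pi * k i)) ^ 2 * poisson δ (disp k - E)) (𝓝[>] 0)
          (𝓝 (ν₁ E))) ∧
      (∀ E₁ E₂ κ R ε : ℝ, Bulk E₁ E₂ → 0 < κ → κ < 1 / 3 → 0 < ε →
        ∃ δ : ℝ, 0 < δ ∧ ∀ E c η : ℝ, E₁ ≤ E → E ≤ E₂ →
          0 < c → c < δ → c ^ (2 + κ) ≤ η → η ≤ δ * c ^ 2 →
          (∀ ω : (Fin 2 → ℤ) → ℝ, ∃! u, IsGreen ω ((E : ℂ) + η * Complex.I) u) ∧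
          ∀ G : ((Fin 2 → ℤ) → ℝ) → (Fin 2 → ℤ) → ℂ,
            (∀ᵐ ω ∂(Pr c), IsGreen ω ((E : ℂ) + η * Complex.I) (G ω)) →
            (∀ x, Integrable (fun ω => ‖G ω x‖ ^ 2) (Pr c)) ∧ Summable (msq c G) ∧
            ∀ P : Fin 2 → ℝ, (∀ j, |P j| ≤ R) →
              ‖(η : ℂ) * ∑' x : Fin 2 → ℤ,
                  Complex.exp (((∑ j, c * Real.sqrt η * P j * x j : ℝ) : ℂ) * Complex.I) *
                    (msq c G x : ℂ) -
                ((Real.pi * ν E /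
                  (1 + 3 * ν₁ E / (4 * Real.pi * ν E ^ 2) * ∑ j, P j ^ 2) : ℝ) : ℂ)‖ ≤ ε) := by
  have hpi := Real.pi_pos
  refine ⟨fun E => Real.pi⁻¹ * (Pool.Agent.Zk71.D2.g2 E).im,
    fun E => Real.pi⁻¹ * (Pool.Agent.Zk71.D2.h2 E).im, ?_, ?_⟩
  · intro E hE0 hE8 hE4
    have hO : Pool.Agent.Zk71.D2.Ok E E := by
      rcases lt_or_gt_of_ne hE4 with h | h
      · exact Or.inl ⟨hE0, h⟩
      · exact Or.inr ⟨h, hE8⟩
    have hg := Pool.Agent.Zk71.D2.g2_pos E hO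
    have hh := Pool.Agent.Zk71.D2.h2_pos E hO
    refine ⟨by positivity, by positivity, ?_, ?_⟩
    · refine ((Pool.Agent.Zk71.D2.g2_po E hO).const_mul Real.pi⁻¹).congr fun δ => ?_
      rw [← integral_const_mul, ← Pool.Agent.Zk11.QD.cube_eq]
      rfl
    · intro i
      refine ((Pool.Agent.Zk71.D2.h2_po i E hO).const_mul Real.pi⁻¹).congr fun δ => ?_
      rw [← integral_const_mul, ← Pool.Agent.Zk11.QD.cube_eq]
      refine integral_congr_ae (Eventually.of_forall fun k => ?_)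
      unfold poisson disp Pool.Agent.Zk11.QD.po Pool.Agent.Zk11.QD.ek
      simp only
      ring
  · intro E₁ E₂ κ R ε hB hκ0 hκ1 hε
    rcases le_or_gt E₁ E₂ with h12 | h12
    swap
    · refine ⟨1, one_pos, fun E c η hEa hEb => ?_⟩
      exfalso
      linarith
    obtain ⟨δ, hδ, h⟩ := Pool.Agent.Zk71.D2.unif2 E₁ E₂ h12 hB κ hκ0 hκ1 R ε hε
    refine ⟨δ, hδ, fun E c η hEa hEb hc0 hc1 hη0 hη1 => ?_⟩
    have hη : 0 < η := lt_of_lt_of_le (Real.rpow_pos_of_pos hc0 _) hη0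
    have hz : 0 < ((E : ℂ) + η * Complex.I).im := by simpa using hη
    refine ⟨fun ω => ?_, fun G hG => ?_⟩
    · obtain ⟨u, hu⟩ := Pool.Agent.Zk11.QD.isG_exists 1 ω _ hz
      exact ⟨u, isG_of.2 hu, fun v hv => Pool.Agent.Zk11.QD.isG_unique 1 ω _ hz v u
        (isG_of.1 hv) hu⟩
    · have hG' : ∀ᵐ ω ∂(Pool.Agent.Zk11.QD.PZ 2 (Pool.Agent.Zk71.DR.unif c)),
          Pool.Agent.Zk11.QD.IsG 1 ω ((E : ℂ) + η * Complex.I) (G ω) :=
        hG.mono fun ω hω => isG_of.1 hω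
      have hprob := Pool.Agent.Zk71.DR.unif_prob c hc0
      refine ⟨fun x => Pool.Agent.Zk11.QD.G_int (Pool.Agent.Zk71.DR.unif c) 1 _ hz G hG' x,
        Pool.Agent.Zk11.QD.G_summable (Pool.Agent.Zk71.DR.unif c) 1 _ hz G hG', fun P hP => ?_⟩
      have hres := h E hEa hEb P hP c η hc0 hc1 hη0 hη1 G hG'
      have hg := Pool.Agent.Zk71.D2.g2_pos E
        (Pool.Agent.Zk71.D2.Ok.pt (E1 := E₁) (E2 := E₂) hB E hEa hEb)
      have e1 : Real.pi * (Real.pi⁻¹ * (Pool.Agent.Zk71.D2.g2 E).im) /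
          (1 + 3 * (Real.pi⁻¹ * (Pool.Agent.Zk71.D2.h2 E).im) /
            (4 * Real.pi * (Real.pi⁻¹ * (Pool.Agent.Zk71.D2.g2 E).im) ^ 2) * ∑ j, P j ^ 2) =
          (Pool.Agent.Zk71.D2.g2 E).im / (1 + 3 * (Pool.Agent.Zk71.D2.h2 E).im /
            (4 * (Pool.Agent.Zk71.D2.g2 E).im ^ 2) * ∑ j, P j ^ 2) := by
        field_simp
      simp only
      rw [e1]
      exact hres

end Pool.Agent.Results.MP_562b47_mp.TwoDimDiffusion
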