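import Pool.Agent.Zk71.LQ2.Wh
import Pool.Agent.Zk71.DR.Unif
import Pool.Agent.Zk60.AE.AllR2
import Pool.Agent.Zk9.OneDC
import Pool.Agent.Zk11.AllE

/-!
# Uniform Anderson model in two dimensions: localization lengths up to and beyond the mean free path

`Δ_ω = -Δ + ω` with iid `ω_j` uniform on `[-c, c]`, small `c`.

(1) On `ℤ²`, with probability `≥ 1 - R^(-A)`, EVERY solution of `Δ_ω u = E u` on a square with the
centre `y` and the radius `c^(-2)` (no boundary condition, no decay, all `y`), at EVERY energy `E`, has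
in the concentric square of radius `r` at most the mass
`C c² log(1/c)⁴ log(R + |y|) r² / (1 + r √κ)` times its mass in the whole square, where `κ` is the
distance of `E` to `{0, 4, 8}`: up to logarithms no eigenfunction is localized below the length `1/c`,
and none off the edges and the van Hove energy below the mean free path `c^(-2)`.

(2) On the torus `(ℤ/L)²`, every side `L ≥ c^(-7/3)`, with probability `≥ 1 - exp(-c^(14/3) L²)` almost
all eigenfunctions, in the whole spectrum and in every window of energies of width `c^γ`, `γ < 7/3`,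
inside the free band without the van Hove energy `4`, have mass less than a power of `c` in every
square of radius `c^(-β)`, `β < 13/6`: their localization length exceeds the mean free path `c^(-2)`
by a power of `1/c`.
-/

set_option autoImplicit false

open scoped BigOperators Topology
open MeasureTheory Filter

namespace Pool.Agent.Results.MP_562b47_mp.TwoDimLengths

/-- the uniform law on `[-c, c]` -/
noncomputable def unif (c : ℝ) : Measure ℝ :=
  ENNReal.ofReal (1 / (2 * c)) • volume.restrict (Set.Icc (-c) c)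

/-- the sites of the discrete torus of side `L` in dimension two -/
abbrev Torus (L : ℕ) : Type := Fin 2 → ZMod L

/-- iid variables, uniform on `[-c, c]` -/
noncomputable def Pr (L : ℕ) [NeZero L] (c : ℝ) : Measure (Torus L → ℝ) :=
  Measure.pi fun _ : Torus L => unif c

/-- `(Δ_ω u)(x) = -∑_{|n|=1} (u(x+n) - u(x)) + ω_x u(x)` on the torus -/
noncomputable def H {L : ℕ} (ω : Torus L → ℝ) (u : Torus L → ℂ) (x : Torus L) : ℂ :=
  -∑ i : Fin 2, ((u (x + Pi.single i 1) - u x) + (u (x - Pi.single i 1) - u x)) + (ω x : ℂ) * u x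

/-- `ψ` is an orthonormal basis of eigenfunctions of `Δ_ω` (indexed by the sites) with the
eigenvalues `E` -/
def IsEigenbasis {L : ℕ} [NeZero L] (ω : Torus L → ℝ) (ψ : Torus L → Torus L → ℂ)
    (E : Torus L → ℝ) : Prop :=
  (∀ j k, ∑ x, (starRingEnd ℂ) (ψ j x) * ψ k x = if j = k then 1 else 0) ∧
    ∀ j x, H ω (ψ j) x = (E j : ℂ) * ψ j x

/-- the square with the centre `y` and the radius `r` -/
noncomputable def square {L : ℕ} [NeZero L] (y : Torus L) (r : ℝ) : Finset (Torus L) :=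
  Finset.univ.filter fun x => ∀ i, ((|((x - y) i).valMinAbs| : ℤ) : ℝ) ≤ r

/-- some square with the radius `r` carries the mass `m` of `u` -/
def Concentrated {L : ℕ} [NeZero L] (r m : ℝ) (u : Torus L → ℂ) : Prop :=
  ∃ y, m ≤ ∑ x ∈ square y r, ‖u x‖ ^ 2

/-- iid variables on `ℤ²`, uniform on `[-c, c]` -/
noncomputable def PrZ (c : ℝ) : Measure ((Fin 2 → ℤ) → ℝ) :=
  Measure.infinitePi fun _ : Fin 2 → ℤ => unif c

/-- `(Δ_ω u)(x) = -∑_{|n|=1} (u(x+n) - u(x)) + ω_x u(x)` on `ℤ²` -/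
noncomputable def HZ (ω : (Fin 2 → ℤ) → ℝ) (u : (Fin 2 → ℤ) → ℂ) (x : Fin 2 → ℤ) : ℂ :=
  -∑ i : Fin 2, ((u (x + Pi.single i 1) - u x) + (u (x - Pi.single i 1) - u x)) + (ω x : ℂ) * u x

/-- the square with the centre `y` and the radius `r` in `ℤ²` -/
noncomputable def squareZ (y : Fin 2 → ℤ) (r : ℝ) : Finset (Fin 2 → ℤ) :=
  Finset.Icc (fun i => y i - ⌊r⌋) (fun i => y i + ⌊r⌋)

/-- rescaling of the uniform law on the lattice -/
theorem map_scaleZ (c : ℝ) (hc : 0 < c) :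
    (PrZ c).map (fun ω x => ω x / c) =
      Measure.infinitePi fun _ : Fin 2 → ℤ => Pool.Agent.Zk71.DR.unif 1 := by
  have hp : IsProbabilityMeasure (unif c) := Pool.Agent.Zk71.DR.unif_prob c hc
  have hm : Measurable fun s : ℝ => s / c := by fun_prop
  have h1 : (unif c).map (fun s => s / c) = Pool.Agent.Zk71.DR.unif 1 :=
    Pool.Agent.Zk71.DR.unif_scale c hc
  unfold PrZ
  rw [Measure.infinitePi_map_pi (μ := fun _ : Fin 2 → ℤ => unif c)
    (f := fun _ => fun s : ℝ => s / c) (fun _ => hm)]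
  simp only [h1]

theorem HZ_eq {c E : ℝ} (hc : 0 < c) {ω : (Fin 2 → ℤ) → ℝ} {u : (Fin 2 → ℤ) → ℂ} {x : Fin 2 → ℤ}
    (h : HZ ω u x = E * u x) :
    Pool.Agent.Zk60.AE.HzZ ((E : ℝ) : ℂ) c (fun x => ω x / c) u x = 0 := by
  have e2 : c * (ω x / c) = ω x := by field_simp
  have e3 : ((c : ℝ) : ℂ) * ((ω x / c : ℝ) : ℂ) = (ω x : ℂ) := by
    rw [← Complex.ofReal_mul, e2]
  unfold HZ at h
  unfold Pool.Agent.Zk60.AE.HzZ
  rw [e3]
  rw [Fin.sum_univ_two] at h ⊢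
  push_cast
  linear_combination h

/-- rescaling of the uniform law -/
theorem map_scale (L : ℕ) [NeZero L] (c : ℝ) (hc : 0 < c) :
    (Pr L c).map (fun ω x => ω x / c) =
      Measure.pi fun _ : Torus L => Pool.Agent.Zk71.DR.unif 1 := by
  have hp : IsProbabilityMeasure (unif c) := Pool.Agent.Zk71.DR.unif_prob c hc
  have hm : Measurable fun s : ℝ => s / c := by fun_prop
  have h1 : (unif c).map (fun s => s / c) = Pool.Agent.Zk71.DR.unif 1 :=
    Pool.Agent.Zk71.DR.unif_scale c hc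
  have hp' : IsProbabilityMeasure ((unif c).map fun s => s / c) :=
    Measure.isProbabilityMeasure_map hm.aemeasurable
  unfold Pr
  rw [← h1]
  exact Measure.pi_map_pi (μ := fun _ : Torus L => unif c) (f := fun _ => fun s : ℝ => s / c)
    (fun _ => hm.aemeasurable)

/-- the exponent of the small powers of `c` -/
noncomputable def tau (β γ : ℝ) : ℝ := min (1 / 6) (min (7 / 3 - γ) (13 / 3 - 2 * β)) / 96

theorem tau_le (β γ : ℝ) : tau β γ ≤ tau β 0 := by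
  unfold tau
  refine div_le_div_of_nonneg_right ?_ (by norm_num)
  refine le_min (min_le_left _ _) (le_min ?_ ?_)
  · refine (min_le_left _ _).trans (by norm_num)
  · exact (min_le_right _ _).trans (min_le_right _ _)

open Classical in
/-- **Theorem.** -/
theorem result :
    (∀ A : ℝ, 0 < A → ∃ C c₁ : ℝ, 0 < C ∧ 0 < c₁ ∧ ∀ c : ℝ, 0 < c → c < c₁ →
      ∀ R : ℝ, c ^ (-(2 : ℝ)) ≤ R →
        ∃ G : Set ((Fin 2 → ℤ) → ℝ), MeasurableSet G ∧ 1 - R ^ (-A) ≤ (PrZ c).real G ∧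
          ∀ ω ∈ G, ∀ (E κ : ℝ) (u : (Fin 2 → ℤ) → ℂ) (y : Fin 2 → ℤ),
            |E| ≤ 9 → 0 ≤ κ → κ ≤ 1 → κ ≤ |E| → κ ≤ |E - 4| → κ ≤ |E - 8| →
            (∀ x ∈ squareZ y (c ^ (-(2 : ℝ))), HZ ω u x = (E : ℂ) * u x) →
            ∀ r : ℝ, 1 ≤ r → r ≤ c ^ (-(2 : ℝ)) →
              ∑ x ∈ squareZ y r, ‖u x‖ ^ 2 ≤
                C * c ^ 2 * Real.log (1 / c) ^ 4 * Real.log (R + ‖y‖) *
                  (r ^ 2 / (1 + r * Real.sqrt κ)) *
                  ∑ x ∈ squareZ y (c ^ (-(2 : ℝ))), ‖u x‖ ^ 2) ∧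
    ∀ E₁ E₂ : ℝ, 0 < E₁ → E₁ < E₂ → E₂ < 8 → (E₂ < 4 ∨ 4 < E₁) →
    ∃ c₀ C₀ : ℝ, 0 < c₀ ∧ 0 < C₀ ∧ ∀ β γ ε : ℝ, β < 13 / 6 → γ < 7 / 3 → 0 < ε →
    ∃ c₁ : ℝ, 0 < c₁ ∧ ∀ c : ℝ, 0 < c → c < c₁ →
      ∀ (L : ℕ) [NeZero L], c ^ (-(7 / 3 : ℝ)) ≤ L →
        ∃ G : Set (Torus L → ℝ), MeasurableSet G ∧
          1 - Real.exp (-(c ^ (14 / 3 : ℝ) * (L : ℝ) ^ 2)) ≤ (Pr L c).real G ∧
          ∀ ω ∈ G, ∀ (ψ : Torus L → Torus L → ℂ) (E : Torus L → ℝ), IsEigenbasis ω ψ E →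
            ((Finset.univ.filter fun j =>
                Concentrated (c ^ (-β)) (c ^ tau β γ) (ψ j)).card : ℝ) ≤ ε * (L : ℝ) ^ 2 ∧
            ∀ s t : ℝ, E₁ ≤ s → t ≤ E₂ → c ^ γ ≤ t - s →
              c₀ * (t - s) * (L : ℝ) ^ 2 ≤
                ((Finset.univ.filter fun j => s ≤ E j ∧ E j ≤ t).card : ℝ) ∧
              ((Finset.univ.filter fun j => s ≤ E j ∧ E j ≤ t).card : ℝ) ≤
                C₀ * (t - s) * (L : ℝ) ^ 2 ∧
              ((Finset.univ.filter fun j => (s ≤ E j ∧ E j ≤ t) ∧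
                Concentrated (c ^ (-β)) (c ^ tau β γ) (ψ j)).card : ℝ) ≤
                c ^ tau β γ * ((Finset.univ.filter fun j => s ≤ E j ∧ E j ≤ t).card : ℝ) := by
  refine ⟨?_, ?_⟩
  · intro A hA
    obtain ⟨C, l0, hC, hl0, h⟩ := Pool.Agent.Zk60.AE.everyR2 2
      (Pool.Agent.Zk11.AE.all 2 le_rfl Pool.Agent.Zk60.AE.one_dc Pool.Agent.Zk60.AE.cnt) A hA 1
    refine ⟨C, l0, hC, hl0, fun c h1 h2 R hR => ?_⟩
    have hp1 : IsProbabilityMeasure (Pool.Agent.Zk71.DR.unif 1) :=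
      Pool.Agent.Zk71.DR.unif_prob 1 one_pos
    have hpc : IsProbabilityMeasure (unif c) := Pool.Agent.Zk71.DR.unif_prob c h1
    have hPp : IsProbabilityMeasure (PrZ c) := by
      unfold PrZ
      infer_instance
    obtain ⟨Bad, hmeas, hprob, hgood⟩ := h (Pool.Agent.Zk71.DR.unif 1)
      (Pool.Agent.Zk71.DR.unif_bdd 1) c h1 h2 R hR
    have hsm : Measurable fun (ω : (Fin 2 → ℤ) → ℝ) (x : Fin 2 → ℤ) => ω x / c :=
      measurable_pi_lambda _ fun x => by fun_prop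
    refine ⟨(fun ω x => ω x / c) ⁻¹' Badᶜ, hsm hmeas.compl, ?_, ?_⟩
    · have e1 : (PrZ c).real ((fun ω x => ω x / c) ⁻¹' Badᶜ) =
          (Measure.infinitePi fun _ : Fin 2 → ℤ => Pool.Agent.Zk71.DR.unif 1).real Badᶜ := by
        rw [← map_scaleZ c h1, measureReal_def, measureReal_def,
          Measure.map_apply hsm hmeas.compl]
      rw [e1, probReal_compl_eq_one_sub hmeas]
      linarith
    · intro ω hω E κ u y hE hκ hκ1 hE0 hE4 hE8 hu r hr1 hr2
      refine hgood (fun x => ω x / c) hω E κ u (by push_cast; linarith) hκ hκ1 ?_ y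
        (fun x hx => HZ_eq h1 (hu x hx)) r hr1 hr2
      intro j hj
      have hm0 : ∫ t, t ∂(Pool.Agent.Zk71.DR.unif 1) = 0 := Pool.Agent.Zk71.DR.unif_mean 1 one_pos
      rw [hm0, mul_zero, sub_zero]
      interval_cases j
      · simpa using hE0
      · simpa using hE4
      · norm_num
        exact hE8
  intro E₁ E₂ hE₁ hE₁₂ hE₂ hE4
  have hO : Pool.Agent.Zk71.D2.Ok E₁ E₂ := by
    rcases hE4 with h | h
    · exact Or.inl ⟨hE₁, h⟩
    · exact Or.inr ⟨h, hE₂⟩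
  obtain ⟨c₀, C₀, hc₀, hC₀, hwin⟩ := Pool.Agent.Zk71.LQ2.main2 E₁ E₂ hE₁₂ hO
  refine ⟨c₀, C₀, hc₀, hC₀, ?_⟩
  intro β γ ε hβ hγ hε
  obtain ⟨l0, hl0, hmain⟩ := hwin 1 (1 / 3) β γ (by norm_num) hβ hγ
  obtain ⟨l1, hl1, hwhole⟩ := Pool.Agent.Zk71.LQ2.whole2 1 (1 / 3) β ε (by norm_num) hβ hε
  refine ⟨min (min l0 l1) 1, lt_min (lt_min hl0 hl1) one_pos, ?_⟩
  intro c h1 h2 L _ hL
  rw [lt_min_iff, lt_min_iff] at h2
  obtain ⟨⟨h20, h21⟩, h22⟩ := h2
  have hp1 : IsProbabilityMeasure (Pool.Agent.Zk71.DR.unif 1) :=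
    Pool.Agent.Zk71.DR.unif_prob 1 one_pos
  have hpc : IsProbabilityMeasure (unif c) := Pool.Agent.Zk71.DR.unif_prob c h1
  obtain ⟨Bad, hmeas, hprob, hgood⟩ := hmain (Pool.Agent.Zk71.DR.unif 1)
    (Pool.Agent.Zk71.DR.unif_bdd 1) (le_of_eq Pool.Agent.Zk71.DR.unif_var) c h1 h20 L hL
  obtain ⟨Bad', hmeas', hprob', hgood'⟩ := hwhole (Pool.Agent.Zk71.DR.unif 1)
    (Pool.Agent.Zk71.DR.unif_bdd 1) (le_of_eq Pool.Agent.Zk71.DR.unif_var) c h1 h21 L hL
  have hcard : (Fintype.card (Torus L) : ℝ) = (L : ℝ) ^ 2 := Pool.Agent.Zk60.LQ.card_L L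
  set P := Measure.pi fun _ : Torus L => Pool.Agent.Zk71.DR.unif 1 with hP
  have hbdm : MeasurableSet {V : Torus L → ℝ | ∀ x, |V x| ≤ 1} := by
    have h3 : {V : Torus L → ℝ | ∀ x, |V x| ≤ 1} = ⋂ x, {V : Torus L → ℝ | |V x| ≤ 1} := by
      ext V; simp
    rw [h3]
    exact MeasurableSet.iInter fun x =>
      measurableSet_le (measurable_pi_apply x).norm measurable_const
  have hbdp : ∀ᵐ V ∂P, V ∈ {V : Torus L → ℝ | ∀ x, |V x| ≤ 1} := by
    have h3 : ∀ x : Torus L, ∀ᵐ V ∂P, |V x| ≤ 1 := fun x =>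
      (Measure.tendsto_eval_ae_ae (μ := fun _ : Torus L => Pool.Agent.Zk71.DR.unif 1) (i := x))
        (Pool.Agent.Zk71.DR.unif_bdd 1)
    exact ae_all_iff.2 h3
  have hsm : Measurable fun (ω : Torus L → ℝ) (x : Torus L) => ω x / c :=
    measurable_pi_lambda _ fun x => by fun_prop
  have hGm : MeasurableSet ((Bad ∪ Bad')ᶜ ∩ {V : Torus L → ℝ | ∀ x, |V x| ≤ 1}) :=
    (hmeas.union hmeas').compl.inter hbdm
  have hPp : IsProbabilityMeasure (Pr L c) := by
    unfold Pr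
    infer_instance
  refine ⟨(fun ω x => ω x / c) ⁻¹' ((Bad ∪ Bad')ᶜ ∩ {V | ∀ x, |V x| ≤ 1}), hsm hGm, ?_, ?_⟩
  · have e1 : (Pr L c).real ((fun ω x => ω x / c) ⁻¹' ((Bad ∪ Bad')ᶜ ∩ {V | ∀ x, |V x| ≤ 1})) =
        P.real ((Bad ∪ Bad')ᶜ ∩ {V | ∀ x, |V x| ≤ 1}) := by
      rw [hP, ← map_scale L c h1, measureReal_def, measureReal_def,
        Measure.map_apply hsm hGm]
    have e2 : P.real ((Bad ∪ Bad')ᶜ ∩ {V | ∀ x, |V x| ≤ 1}) = P.real (Bad ∪ Bad')ᶜ := by
      rw [measureReal_def, measureReal_def]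
      congr 1
      refine measure_congr ?_
      filter_upwards [hbdp] with V hV
      refine propext ⟨fun h => h.1, fun h => ⟨h, hV⟩⟩
    rw [e1, e2, probReal_compl_eq_one_sub (hmeas.union hmeas')]
    have k1 : P.real (Bad ∪ Bad') ≤ P.real Bad + P.real Bad' := measureReal_union_le _ _
    have k2 : P.real Bad ≤ Real.exp (-(3 * (c ^ (14 / 3 : ℝ) * (L : ℝ) ^ 2))) := by
      rw [← hcard]; exact hprob
    have k3 : P.real Bad' ≤ 2 * Real.exp (-(3 * (c ^ (14 / 3 : ℝ) * (L : ℝ) ^ 2))) := by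
      rw [← hcard]; exact hprob'
    have k4 : (1 : ℝ) ≤ c ^ (14 / 3 : ℝ) * (L : ℝ) ^ 2 := by
      have q2 : (c ^ (-(7 / 3 : ℝ))) ^ 2 ≤ (L : ℝ) ^ 2 :=
        pow_le_pow_left₀ (Real.rpow_nonneg h1.le _) hL 2
      have q3 : (c ^ (-(7 / 3 : ℝ))) ^ 2 = c ^ (-(14 / 3 : ℝ)) := by
        rw [← Real.rpow_natCast, ← Real.rpow_mul h1.le]; norm_num
      have q4 : c ^ (14 / 3 : ℝ) * c ^ (-(14 / 3 : ℝ)) = 1 := by
        rw [← Real.rpow_add h1]; simp
      rw [q3] at q2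
      have q5 := mul_le_mul_of_nonneg_left q2 (Real.rpow_nonneg h1.le (14 / 3 : ℝ))
      linarith
    have k5 : 3 * Real.exp (-(3 * (c ^ (14 / 3 : ℝ) * (L : ℝ) ^ 2))) ≤
        Real.exp (-(c ^ (14 / 3 : ℝ) * (L : ℝ) ^ 2)) := by
      generalize c ^ (14 / 3 : ℝ) * (L : ℝ) ^ 2 = x at k4
      have q1 : Real.exp (-(3 * x)) = Real.exp (-(2 * x)) * Real.exp (-x) := by
        rw [← Real.exp_add]; congr 1; ring
      have q2 : 3 * Real.exp (-(2 * x)) ≤ 1 := by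
        rw [Real.exp_neg]
        have q3 : 3 ≤ Real.exp (2 * x) := by
          have := Real.add_one_le_exp (2 * x)
          linarith
        rw [← div_eq_mul_inv, div_le_one (Real.exp_pos _)]
        exact q3
      rw [q1]
      nlinarith [Real.exp_pos (-x)]
    linarith
  · rintro ω ⟨hω, hωb⟩ ψ E hE
    have hV1 : (fun x => ω x / c) ∉ Bad := fun h => hω (Or.inl h)
    have hV2 : (fun x => ω x / c) ∉ Bad' := fun h => hω (Or.inr h)
    have hEB : Pool.Agent.Zk60.LL.Det.EB c (fun x => ω x / c) ψ E := by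
      refine ⟨hE.1, fun j x => ?_⟩
      rw [← hE.2 j x]
      unfold H Pool.Agent.Zk11.QD.Hz
      have e1 : ∑ i : Fin 2, ((ψ j (x + Pi.single i 1) - ψ j x) + (ψ j (x - Pi.single i 1) - ψ j x)) =
          ∑ i : Fin 2, (ψ j (x + Pi.single i 1) + ψ j (x - Pi.single i 1)) - 4 * ψ j x := by
        rw [Fin.sum_univ_two, Fin.sum_univ_two]
        ring
      have e2 : c * (ω x / c) = ω x := by field_simp
      rw [e1]
      push_cast
      have e3 : ((c : ℝ) : ℂ) * ((ω x : ℂ) / (c : ℂ)) = (ω x : ℂ) := by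
        exact_mod_cast congrArg (fun r : ℝ => (r : ℂ)) e2
      rw [e3]
      ring
    refine ⟨?_, ?_⟩
    · rw [← hcard]
      refine hgood' _ hV2 hωb ψ E hEB _ fun j hj => ?_
      obtain ⟨_, y0, hy⟩ := Finset.mem_filter.1 hj
      refine ⟨square y0 (c ^ (-β)), y0, fun x hx => (Finset.mem_filter.1 hx).2, le_trans ?_ hy⟩
      exact Real.rpow_le_rpow_of_exponent_ge h1 h22.le (tau_le β γ)
    · intro s t hs ht hst
      obtain ⟨g1, g2, g3⟩ := hgood _ hV1 ψ E hEB s t hs ht hst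
      rw [hcard] at g1 g2
      refine ⟨?_, ?_, ?_⟩
      · refine g1.trans (le_of_eq ?_)
        congr 2
      · refine le_trans (le_of_eq ?_) g2
        congr 2
      · refine (g3 (Finset.univ.filter fun j => (s ≤ E j ∧ E j ≤ t) ∧
          Concentrated (c ^ (-β)) (c ^ tau β γ) (ψ j)) fun j hj => ?_).trans (le_of_eq ?_)
        · obtain ⟨_, ⟨p1, p2⟩, y0, hy⟩ := Finset.mem_filter.1 hj
          exact ⟨p1, p2, square y0 (c ^ (-β)), y0, fun x hx => (Finset.mem_filter.1 hx).2, hy⟩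
        · show _ = c ^ tau β γ * _
          congr 3

end Pool.Agent.Results.MP_562b47_mp.TwoDimLengths
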