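import Pool.Agent.Zk93.F2.U

/-!
# Uniform Anderson model in two dimensions: the Schrödinger evolution is diffusive, energy by
energy, at all times up to `c^{-2-κ}`, `κ < 1/3`

`Δ_ω = -Δ + ω` on `ℤ²` with iid `ω_j` uniform on `[-c, c]`, `c → 0`. Let `ψ^y_t` be the solution of
`i ∂ψ/∂t = Δ_ω ψ` in `ℓ²(ℤ²)` with `ψ_0 = δ_y`. On the time scale `T`, `c^{-2} ≪ T ≤ c^{-2-κ}`, and on
the diffusive length scale `c^{-1} √T`, at every fixed macroscopic time `τ` and for every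
microscopic time lag `s ≥ 0`,

`∑_x e^{iθ(x-y)} conj(ψ^y_{τT+s}(x)) ψ^y_{τT}(x) → ∫ ν(E) e^{isE} exp(-2 τ D(E) |P|²) dE`,
`θ = c T^{-1/2} P`,

`ν` the free density of states and `c^{-2} D(E)`, `D = 3 ν₁ / (4 π ν²)`, the diffusion constant at
the energy `E`. The left side is the joint characteristic function
`⟨ψ_0, e^{isΔ_ω} e^{iθ(X(τT)-y)} ψ_0⟩` of the energy and of the position at time `τT`: the energy has
the density `ν`, and given the energy `E` the rescaled position is Gaussian, `N(0, 4 τ D(E))`. With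
`s = 0` it is the characteristic function of the position distribution `|ψ^y_{τT}(x)|²`. (1) This
holds for the average over the disorder, with one starting point, and (2) in a fixed realization of
the disorder (outside an event of probability `exp(-c^{-γ})`), for the average over starting points
`y ∈ B`, `|B| ≥ c^{-β}`.

Proof. Plancherel's theorem (in its autocorrelation form) turns the Laplace averages in time of the
left side into averages, with the weight `e^{isE}`, of the squared Green function over all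
energies. In compact parts of `(0, 4) ∪ (4, 8)` the latter are given by quantum diffusion
(`TwoDimDiffusion` for the mean, concentration for a fixed realization). The remaining energies,
those near the van Hove energy `4` among them, carry no mass, since the total mass is `1` on both
sides: `∫ ν = 1` as the level lines of the dispersion relation are null sets. Linear combinations
of exponentials `e^{-kτ}` give all time windows. The passage to fixed times uses the stationarity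
of the increments of the position, `E |F^s_{r+t} - F^s_t|² ≤ 2 - 2 Re E F_r`,
`F^s_t = ⟨ψ_{t+s}, e^{iθX} ψ_t⟩`, and for one realization a bound for the sum of the squares of the
changes of the average over `B` when the potential is changed at single sites
(`Zk93/FT`, as in `SchrodingerDiffusion`, `MP_28b024_mp`).

Authors: helper71 (two dimensions, time windows), helper93 (fixed times, energy by energy).
-/

set_option autoImplicit false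

open scoped BigOperators Topology
open MeasureTheory Filter

namespace Pool.Agent.Results.MP_562b47_mp.TwoDimSchrodinger

/-- the uniform law on `[-c, c]` -/
noncomputable def unif (c : ℝ) : Measure ℝ :=
  ENNReal.ofReal (1 / (2 * c)) • volume.restrict (Set.Icc (-c) c)

/-- iid variables on `ℤ²`, uniform on `[-c, c]` -/
noncomputable def Pr (c : ℝ) : Measure ((Fin 2 → ℤ) → ℝ) :=
  Measure.infinitePi fun _ : Fin 2 → ℤ => unif c

/-- `(Δ_ω u)(x) = -∑_{|n|=1} (u(x+n) - u(x)) + ω_x u(x)` -/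
noncomputable def H (ω : (Fin 2 → ℤ) → ℝ) (u : (Fin 2 → ℤ) → ℂ) (x : Fin 2 → ℤ) : ℂ :=
  -∑ i : Fin 2, ((u (x + Pi.single i 1) - u x) + (u (x - Pi.single i 1) - u x)) + (ω x : ℂ) * u x

/-- `ψ t = e^{-itΔ_ω} δ_y`: the solution of the Schrödinger equation `i ∂ψ/∂t = Δ_ω ψ` with
`∑_x |ψ t x|² = 1` for all `t` and `ψ 0 = δ_y` -/
def IsEvolution (ω : (Fin 2 → ℤ) → ℝ) (y : Fin 2 → ℤ) (ψ : ℝ → (Fin 2 → ℤ) → ℂ) : Prop :=
  (∀ x, ψ 0 x = if x = y then 1 else 0) ∧ (∀ t, HasSum (fun x => ‖ψ t x‖ ^ 2) 1) ∧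
    ∀ t x, HasDerivAt (fun s => ψ s x) (-Complex.I * H ω (ψ t) x) t

/-- the dispersion relation `∑_i (2 - 2 cos 2πk_i)` of `-Δ`, `k ∈ [0,1]²` -/
noncomputable def disp (k : Fin 2 → ℝ) : ℝ := ∑ i, (2 - 2 * Real.cos (2 * Real.pi * k i))

/-- the Poisson kernel `π⁻¹ δ/(y² + δ²)` -/
noncomputable def poisson (δ y : ℝ) : ℝ := Real.pi⁻¹ * (δ / (y ^ 2 + δ ^ 2))

/-- the joint characteristic function at `(s, P)` of an energy `E` with density `ν` and a position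
with the law `N(0, 4 τ D(E))` given `E`, `D = 3 ν₁ / (4 π ν²)` -/
noncomputable def heat (ν ν₁ : ℝ → ℝ) (τ s : ℝ) (P : Fin 2 → ℝ) : ℂ :=
  ∫ E in Set.Ioo (0 : ℝ) 8, Complex.exp (((s * E : ℝ) : ℂ) * Complex.I) *
    ((ν E * Real.exp (-(2 * τ * (3 * ν₁ E / (4 * Real.pi * ν E ^ 2)) * ∑ j, P j ^ 2)) : ℝ) : ℂ)

theorem H_of (ω : (Fin 2 → ℤ) → ℝ) (u : (Fin 2 → ℤ) → ℂ) (x : Fin 2 → ℤ) :
    H ω u x = Pool.Agent.Zk11.QD.HZ 1 ω u x := by
  unfold H Pool.Agent.Zk11.QD.HZ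
  rw [one_mul]

theorem ev_of {ω : (Fin 2 → ℤ) → ℝ} {y : Fin 2 → ℤ} {ψ : ℝ → (Fin 2 → ℤ) → ℂ} :
    IsEvolution ω y ψ ↔ Pool.Agent.Zk93.TE.Ev 1 ω y ψ := by
  constructor
  · intro h
    exact ⟨h.1, h.2.1, fun t x => by rw [← H_of]; exact h.2.2 t x⟩
  · intro h
    exact ⟨h.init, h.mass, fun t x => by rw [H_of]; exact h.eq t x⟩

theorem ev_eu {b : ℝ} {ω : (Fin 2 → ℤ) → ℝ} (hω : ∀ x, |ω x| ≤ b) (y : Fin 2 → ℤ) :
    ∃! ψ, IsEvolution ω y ψ :=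
  ⟨Pool.Agent.Zk93.TE.psi 1 ω y, ev_of.2 (Pool.Agent.Zk93.TE.psi_ev hω y),
    fun _ h => Pool.Agent.Zk93.TE.ev_unique hω (ev_of.1 h) (Pool.Agent.Zk93.TE.psi_ev hω y)⟩

theorem spec_ae : Set.Ioo (0 : ℝ) 8 =ᵐ[volume] Pool.Agent.Zk71.S2.Sx := by
  rw [ae_eq_set]
  constructor
  · refine measure_mono_null (t := {(4 : ℝ)}) ?_ (by simp)
    rintro E ⟨⟨h1, h2⟩, h3⟩
    by_contra h4
    refine h3 ?_
    rcases lt_or_gt_of_ne (show E ≠ 4 from h4) with h | h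
    · exact Or.inl ⟨h1, h⟩
    · exact Or.inr ⟨h, h2⟩
  · have : Pool.Agent.Zk71.S2.Sx \ Set.Ioo (0 : ℝ) 8 = ∅ := by
      rw [Set.sdiff_eq_empty]
      rintro E (h | h)
      · exact ⟨h.1, by linarith [h.2]⟩
      · exact ⟨by linarith [h.1], h.2⟩
    rw [this, measure_empty]

theorem heat_eq (τ s : ℝ) (P : Fin 2 → ℝ) :
    heat (fun E => Real.pi⁻¹ * Pool.Agent.Zk71.S2.gg E)
      (fun E => Real.pi⁻¹ * Pool.Agent.Zk71.S2.hh E) τ s P =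
      (Real.pi : ℂ)⁻¹ * Pool.Agent.Zk93.F2.Ms2 (1 / 3) (∑ j, P j ^ 2) s τ := by
  have hpi := Real.pi_pos
  unfold heat Pool.Agent.Zk93.F2.Ms2
  rw [setIntegral_congr_set spec_ae, ← integral_const_mul]
  refine integral_congr_ae (Eventually.of_forall fun E => ?_)
  simp only
  unfold Pool.Agent.Zk71.S2.Dd2 Pool.Agent.Zk93.FT.osc
  have e1 : 3 * (Real.pi⁻¹ * Pool.Agent.Zk71.S2.hh E) /
      (4 * Real.pi * (Real.pi⁻¹ * Pool.Agent.Zk71.S2.gg E) ^ 2) =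
      Pool.Agent.Zk71.S2.hh E / (4 * Pool.Agent.Zk71.S2.gg E ^ 2 * (1 / 3)) := by
    by_cases h0 : Pool.Agent.Zk71.S2.gg E = 0
    · rw [h0]; simp
    · field_simp
  rw [e1]
  push_cast
  ring

theorem SB_eq (θ : Fin 2 → ℝ) (B : Finset (Fin 2 → ℤ))
    (ψ : (Fin 2 → ℤ) → ℝ → (Fin 2 → ℤ) → ℂ) (s t : ℝ) :
    Pool.Agent.Zk93.FT.SB2 θ s B ψ t = (B.card : ℂ)⁻¹ * ∑ y ∈ B, ∑' x : Fin 2 → ℤ,
      Complex.exp (((∑ j, θ j * (x j - y j) : ℝ) : ℂ) * Complex.I) *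
        (star (ψ y (t + s) x) * ψ y t x) := by
  unfold Pool.Agent.Zk93.FT.SB2
  congr 1
  refine Finset.sum_congr rfl fun y _ => ?_
  unfold Pool.Agent.Zk93.FT.Sp2
  symm
  rw [← (Equiv.addRight y).tsum_eq]
  refine tsum_congr fun x => ?_
  unfold Pool.Agent.Zk11.QQ.ex
  simp

/-- **Theorem.** -/
theorem result :
    ∃ ν ν₁ : ℝ → ℝ,
      (∀ E : ℝ, 0 < E → E < 8 → E ≠ 4 → 0 < ν E ∧ 0 < ν₁ E ∧
        Tendsto (fun δ : ℝ => ∫ k in Set.Icc (0 : Fin 2 → ℝ) 1, poisson δ (disp k - E)) (𝓝[>] 0)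
          (𝓝 (ν E)) ∧
        ∀ i : Fin 2, Tendsto (fun δ : ℝ => ∫ k in Set.Icc (0 : Fin 2 → ℝ) 1,
          (2 * Real.sin (2 * Real.pi * k i)) ^ 2 * poisson δ (disp k - E)) (𝓝[>] 0)
          (𝓝 (ν₁ E))) ∧
      IntegrableOn ν (Set.Ioo (0 : ℝ) 8) ∧ ∫ E in Set.Ioo (0 : ℝ) 8, ν E = 1 ∧
      ∀ κ R ε : ℝ, 0 < κ → κ < 1 / 3 → 0 < ε →
      (∃ δ : ℝ, 0 < δ ∧ ∀ c : ℝ, 0 < c → c < δ →
        (∀ᵐ ω ∂(Pr c), ∃! ψ, IsEvolution ω 0 ψ) ∧
        ∀ ψ : ((Fin 2 → ℤ) → ℝ) → ℝ → (Fin 2 → ℤ) → ℂ, (∀ᵐ ω ∂(Pr c), IsEvolution ω 0 (ψ ω)) →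
          (∀ t s, Summable fun x => ‖∫ ω, star (ψ ω (t + s) x) * ψ ω t x ∂(Pr c)‖) ∧
          ∀ T : ℝ, c ^ (-2 : ℝ) / δ ≤ T → T ≤ c ^ (-(2 + κ)) →
          ∀ P : Fin 2 → ℝ, (∀ j, |P j| ≤ R) →
          ∀ τ s : ℝ, 0 ≤ τ → τ ≤ R → 0 ≤ s → s ≤ R →
          ‖∑' x : Fin 2 → ℤ,
              Complex.exp (((∑ j, c / Real.sqrt T * P j * x j : ℝ) : ℂ) * Complex.I) *
                (∫ ω, star (ψ ω (τ * T + s) x) * ψ ω (τ * T) x ∂(Pr c)) -
            heat ν ν₁ τ s P‖ ≤ ε) ∧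
      (∀ γ β : ℝ, 0 < γ → 2 + 2 * κ + 2 * γ < β →
        ∃ δ : ℝ, 0 < δ ∧ ∀ c : ℝ, 0 < c → c < δ →
        ∀ 𝓑 : Finset (Finset (Fin 2 → ℤ)), (𝓑.card : ℝ) ≤ Real.exp (c ^ (-γ)) →
        (∀ B ∈ 𝓑, c ^ (-β) ≤ (B.card : ℝ)) →
        ∃ Good : Set ((Fin 2 → ℤ) → ℝ), MeasurableSet Good ∧
          1 - Real.exp (-c ^ (-γ)) ≤ (Pr c).real Good ∧
          ∀ ω ∈ Good, (∀ y, ∃! ψ, IsEvolution ω y ψ) ∧
            ∀ ψ : (Fin 2 → ℤ) → ℝ → (Fin 2 → ℤ) → ℂ, (∀ y, IsEvolution ω y (ψ y)) →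
            ∀ B ∈ 𝓑, ∀ T : ℝ, c ^ (-2 : ℝ) / δ ≤ T → T ≤ c ^ (-(2 + κ)) →
            ∀ P : Fin 2 → ℝ, (∀ j, |P j| ≤ R) →
            ∀ τ s : ℝ, 0 ≤ τ → τ ≤ R → 0 ≤ s → s ≤ R →
            ‖(B.card : ℂ)⁻¹ * ∑ y ∈ B, ∑' x : Fin 2 → ℤ,
                Complex.exp (((∑ j, c / Real.sqrt T * P j * (x j - y j) : ℝ) : ℂ) *
                  Complex.I) * (star (ψ y (τ * T + s) x) * ψ y (τ * T) x) -
              heat ν ν₁ τ s P‖ ≤ ε) := by
  have hpi := Real.pi_pos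
  refine ⟨fun E => Real.pi⁻¹ * Pool.Agent.Zk71.S2.gg E,
    fun E => Real.pi⁻¹ * Pool.Agent.Zk71.S2.hh E, ?_, ?_, ?_, ?_⟩
  · intro E hE0 hE8 hE4
    have hS : E ∈ Pool.Agent.Zk71.S2.Sx := by
      rcases lt_or_gt_of_ne hE4 with h | h
      · exact Or.inl ⟨hE0, h⟩
      · exact Or.inr ⟨h, hE8⟩
    have hO := Pool.Agent.Zk71.S2.Sx_ok hS
    have hg := Pool.Agent.Zk71.S2.gg_pos hS
    have hh := Pool.Agent.Zk71.S2.hh_pos hS
    refine ⟨by positivity, by positivity, ?_, ?_⟩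
    · simp only [Pool.Agent.Zk71.S2.gg_eq hS]
      refine ((Pool.Agent.Zk71.D2.g2_po E hO).const_mul Real.pi⁻¹).congr fun δ => ?_
      rw [← integral_const_mul, ← Pool.Agent.Zk11.QD.cube_eq]
      rfl
    · intro i
      simp only [Pool.Agent.Zk71.S2.hh_eq hS]
      refine ((Pool.Agent.Zk71.D2.h2_po i E hO).const_mul Real.pi⁻¹).congr fun δ => ?_
      rw [← integral_const_mul, ← Pool.Agent.Zk11.QD.cube_eq]
      refine integral_congr_ae (Eventually.of_forall fun k => ?_)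
      unfold poisson disp Pool.Agent.Zk11.QD.po Pool.Agent.Zk11.QD.ek
      simp only
      ring
  · have h1 : IntegrableOn (fun E => Real.pi⁻¹ * Pool.Agent.Zk71.S2.gg E)
        Pool.Agent.Zk71.S2.Sx := Pool.Agent.Zk71.S2.gg_int.const_mul _
    exact h1.congr_set_ae spec_ae
  · rw [setIntegral_congr_set spec_ae, integral_const_mul, Pool.Agent.Zk71.S2.gg_one,
      inv_mul_cancel₀ hpi.ne']
  intro κ R ε hκ0 hκ1 hε
  refine ⟨?_, fun γ β hγ hβ => ?_⟩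
  · obtain ⟨δ, hδ, h⟩ := Pool.Agent.Zk93.F2.unifAS κ hκ0 hκ1 R ε hε
    refine ⟨δ, hδ, fun c hc0 hc1 => ⟨?_, fun ψ hψ => ?_⟩⟩
    · have hp : IsProbabilityMeasure (Pool.Agent.Zk71.DR.unif c) :=
        Pool.Agent.Zk71.DR.unif_prob c hc0
      have h1 := Pool.Agent.Zk11.QQ.ae_Z (d := 2) (Pool.Agent.Zk71.DR.unif c) c
        (Pool.Agent.Zk71.DR.unif_bdd c)
      have h2 : ∀ᵐ ω ∂(Pr c), ∀ x, |ω x| ≤ c := h1
      filter_upwards [h2] with ω hω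
      exact ev_eu hω 0
    obtain ⟨h1, h2⟩ := h c hc0 hc1 ψ (hψ.mono fun ω hω => ev_of.1 hω)
    refine ⟨h1, fun T hT1 hT2 P hP τ s hτ0 hτ1 hs0 hs1 => ?_⟩
    have h3 := h2 T hT1 hT2 P hP s hs0 hs1 τ hτ0 hτ1
    rw [heat_eq]
    exact h3
  · obtain ⟨δ, hδ, h⟩ := Pool.Agent.Zk93.F2.unifQS κ hκ0 hκ1 β γ hγ hβ R ε hε
    refine ⟨δ, hδ, fun c hc0 hc1 𝓑 h𝓑 hcard => ?_⟩
    obtain ⟨Good, hGm, hGp, hGb, hG⟩ := h c hc0 hc1 𝓑 h𝓑 hcard
    refine ⟨Good, hGm, hGp, fun ω hω => ⟨fun y => ev_eu (hGb ω hω) y, ?_⟩⟩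
    intro ψ hψ B hB T hT1 hT2 P hP τ s hτ0 hτ1 hs0 hs1
    have h1 := hG ω hω ψ (fun y => ev_of.1 (hψ y)) B hB T hT1 hT2 P hP s hs0 hs1 τ hτ0 hτ1
    rw [SB_eq] at h1
    rw [heat_eq]
    exact h1

end Pool.Agent.Results.MP_562b47_mp.TwoDimSchrodinger
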